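import Mathlib

/-!
# Center components versus the Hamiltonian component

We prove that for every `d ≥ 2` every irreducible component of the closed set `M(d)` of
foliations with a center meets the set `L(d+1)` of foliations `F(df)`, `deg f ≤ d + 1`; the common
point can be chosen to be a foliation `F(dq)`, `q` a quadratic polynomial, that has a center.

Idea.  Let `X` be a component.  The projective space of forms is a Noetherian space, so `X`
contains a nonempty open subset of `M(d)` and hence a foliation `F(P dy - Q dx)` of degree `d` with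
a center `p` that lies in no other component.  The forms
`ω_t = P(p + t(x-p))/t dy - Q(p + t(x-p))/t dx` depend polynomially on `t`; for `t ≠ 0` they
define foliations of degree `d` with a center at `p`, so the whole curve lies in one component,
which must be `X`.  At `t = 0` we get the linear part of `ω` at the center, which is closed.
-/

open MvPolynomial Topology

namespace Pool.Agent.Results.MP_9e47d4_ag.CenterComponents


/-- Polynomial `1`-forms `ω = P dy - Q dx` on `ℂ²` with `deg P, deg Q ≤ d`, stored as the pair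
`(P, Q)`.  The coordinates of `ℂ²` are `x = X 0` and `y = X 1`. -/
abbrev Forms (d : ℕ) : Type :=
  restrictTotalDegree (Fin 2) ℂ d × restrictTotalDegree (Fin 2) ℂ d

/-- The projectivization of the space of forms. -/
def FolBar (d : ℕ) : Type := Projectivization ℂ (Forms d)

/-- The class `𝓕(ω)` of a nonzero form. -/
noncomputable def cls {d : ℕ} (ω : Forms d) (h : ω ≠ 0) : FolBar d := Projectivization.mk ℂ ω h

/-- Evaluate a polynomial in the coordinates (with respect to a fixed basis) of a form. -/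
noncomputable def evalAt {d : ℕ} (F : MvPolynomial (Fin (Module.finrank ℂ (Forms d))) ℂ)
    (ω : Forms d) : ℂ :=
  eval (fun i => (Module.finBasis ℂ (Forms d)).repr ω i) F

/-- Algebraic subsets of the projective space `FolBar d`: common zero loci of homogeneous
polynomials in the coordinates. -/
def IsAlgebraicSet {d : ℕ} (Z : Set (FolBar d)) : Prop :=
  ∃ T : Set (MvPolynomial (Fin (Module.finrank ℂ (Forms d))) ℂ),
    (∀ F ∈ T, ∃ k, F.IsHomogeneous k) ∧
      Z = {x | ∀ (ω : Forms d) (h : ω ≠ 0), cls ω h = x → ∀ F ∈ T, evalAt F ω = 0}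

lemma evalAt_smul {d : ℕ} {F : MvPolynomial (Fin (Module.finrank ℂ (Forms d))) ℂ} {k : ℕ}
    (hF : F.IsHomogeneous k) (c : ℂ) (ω : Forms d) : evalAt F (c • ω) = c ^ k * evalAt F ω := by
  unfold evalAt
  simp only [map_smul, Finsupp.smul_apply, smul_eq_mul]
  rw [eval_eq, eval_eq, Finset.mul_sum]
  refine Finset.sum_congr rfl fun m hm => ?_
  have h1 : ∑ i ∈ m.support, m i = k := by
    have := hF (mem_support_iff.1 hm)
    rw [Finsupp.weight_apply, Finsupp.sum] at this
    simpa using this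
  rw [Finset.prod_congr rfl fun i _ => mul_pow c _ (m i), Finset.prod_mul_distrib,
    Finset.prod_pow_eq_pow_sum, h1]
  ring

lemma exists_cls {d : ℕ} (x : FolBar d) : ∃ (ω : Forms d) (h : ω ≠ 0), cls ω h = x :=
  ⟨Projectivization.rep x, Projectivization.rep_nonzero x, Projectivization.mk_rep x⟩

lemma cls_eq_iff {d : ℕ} {ω η : Forms d} (h : ω ≠ 0) (h' : η ≠ 0) :
    cls ω h = cls η h' ↔ ∃ c : ℂ, c ≠ 0 ∧ c • η = ω := by
  refine (Projectivization.mk_eq_mk_iff ℂ ω η h h').trans ?_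
  constructor
  · rintro ⟨a, ha⟩
    exact ⟨a, a.ne_zero, ha⟩
  · rintro ⟨c, hc, h⟩
    exact ⟨Units.mk0 c hc, h⟩

/-- membership in a zero locus can be tested on one representative -/
lemma mem_locus_iff {d : ℕ} {T : Set (MvPolynomial (Fin (Module.finrank ℂ (Forms d))) ℂ)}
    (hT : ∀ F ∈ T, ∃ k, F.IsHomogeneous k) (ω : Forms d) (h : ω ≠ 0) :
    cls ω h ∈ {x | ∀ (ω : Forms d) (h : ω ≠ 0), cls ω h = x → ∀ F ∈ T, evalAt F ω = 0} ↔
      ∀ F ∈ T, evalAt F ω = 0 := by
  constructor
  · intro H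
    exact H ω h rfl
  · intro H η hη he F hF
    obtain ⟨c, hc, rfl⟩ := (cls_eq_iff hη h).1 he
    obtain ⟨k, hk⟩ := hT F hF
    rw [evalAt_smul hk, H F hF, mul_zero]

/-- The Zariski topology of the projective space `FolBar d`. -/
instance zariski (d : ℕ) : TopologicalSpace (FolBar d) :=
  TopologicalSpace.ofClosed {Z | IsAlgebraicSet Z}
    (by
      refine ⟨{1}, fun F hF => ⟨0, ?_⟩, ?_⟩
      · rw [Set.mem_singleton_iff.1 hF]
        exact isHomogeneous_one _ _
      · ext x
        simp only [Set.mem_empty_iff_false, Set.mem_singleton_iff, forall_eq, Set.mem_ofPred_eq,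
          false_iff]
        intro H
        obtain ⟨ω, h, rfl⟩ := exists_cls x
        have := H ω h rfl
        simp [evalAt] at this)
    (by
      intro A hA
      have hA' : ∀ Z : Set (FolBar d), ∃ T : Set (MvPolynomial (Fin (Module.finrank ℂ (Forms d))) ℂ),
          Z ∈ A → (∀ F ∈ T, ∃ k, F.IsHomogeneous k) ∧
      Z = {x | ∀ (ω : Forms d) (h : ω ≠ 0), cls ω h = x → ∀ F ∈ T, evalAt F ω = 0} := by
        intro Z
        by_cases hZ : Z ∈ A
        · obtain ⟨T, hT⟩ := hA hZ
          exact ⟨T, fun _ => hT⟩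
        · exact ⟨∅, fun h => absurd h hZ⟩
      choose T hTZ using hA'
      have hT := fun Z hZ => (hTZ Z hZ).1
      have hZ := fun Z hZ => (hTZ Z hZ).2
      refine ⟨⋃ Z ∈ A, T Z, ?_, ?_⟩
      · intro F hF
        simp only [Set.mem_iUnion, exists_prop] at hF
        obtain ⟨Z, hZA, hF⟩ := hF
        exact hT Z hZA F hF
      · ext x
        simp only [Set.mem_sInter, Set.mem_iUnion, exists_prop, Set.mem_ofPred_eq]
        constructor
        · rintro H ω h rfl F ⟨Z, hZA, hF⟩
          have := H Z hZA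
          rw [hZ Z hZA] at this
          exact this ω h rfl F hF
        · intro H Z hZA
          rw [hZ Z hZA]
          intro ω h he F hF
          exact H ω h he F ⟨Z, hZA, hF⟩)
    (by
      rintro A ⟨T, hT, rfl⟩ B ⟨T', hT', rfl⟩
      refine ⟨{F | ∃ G ∈ T, ∃ G' ∈ T', F = G * G'}, ?_, ?_⟩
      · rintro F ⟨G, hG, G', hG', rfl⟩
        obtain ⟨k, hk⟩ := hT G hG
        obtain ⟨k', hk'⟩ := hT' G' hG'
        exact ⟨k + k', hk.mul hk'⟩
      · have hTT : ∀ F ∈ {F | ∃ G ∈ T, ∃ G' ∈ T', F = G * G'}, ∃ k, F.IsHomogeneous k := by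
          rintro F ⟨G, hG, G', hG', rfl⟩
          obtain ⟨k, hk⟩ := hT G hG
          obtain ⟨k', hk'⟩ := hT' G' hG'
          exact ⟨k + k', hk.mul hk'⟩
        ext x
        obtain ⟨ω, h, rfl⟩ := exists_cls x
        rw [Set.mem_union, mem_locus_iff hT, mem_locus_iff hT', mem_locus_iff hTT]
        constructor
        · rintro (H | H) F ⟨G, hG, G', hG', rfl⟩
          · have := H G hG
            unfold evalAt at this ⊢
            rw [map_mul, this, zero_mul]
          · have := H G' hG'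
            unfold evalAt at this ⊢
            rw [map_mul, this, mul_zero]
        · intro H
          by_contra hcon
          push Not at hcon
          obtain ⟨⟨G, hG, hG0⟩, G', hG', hG0'⟩ := hcon
          have := H (G * G') ⟨G, hG, G', hG', rfl⟩
          unfold evalAt at this hG0 hG0'
          rw [map_mul] at this
          exact (mul_ne_zero hG0 hG0') this)

lemma isClosed_iff {d : ℕ} (Z : Set (FolBar d)) : IsClosed Z ↔ IsAlgebraicSet Z := by
  rw [← isOpen_compl_iff]
  change Zᶜᶜ ∈ {Z | IsAlgebraicSet Z} ↔ _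
  rw [compl_compl]; rfl

/-- The ideal of polynomials vanishing on the cone over `Z`. -/
noncomputable def coneIdeal {d : ℕ} (Z : Set (FolBar d)) :
    Ideal (MvPolynomial (Fin (Module.finrank ℂ (Forms d))) ℂ) where
  carrier := {F | ∀ (ω : Forms d) (h : ω ≠ 0), cls ω h ∈ Z → evalAt F ω = 0}
  add_mem' := by
    intro F G hF hG ω h hZ
    have h1 := hF ω h hZ
    have h2 := hG ω h hZ
    unfold evalAt at *
    rw [map_add, h1, h2, add_zero]
  zero_mem' := by
    intro ω h hZ
    unfold evalAt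
    rw [map_zero]
  smul_mem' := by
    intro c F hF ω h hZ
    have h1 := hF ω h hZ
    unfold evalAt at *
    rw [smul_eq_mul, map_mul, h1, mul_zero]

lemma mem_coneIdeal {d : ℕ} (Z : Set (FolBar d))
    (F : MvPolynomial (Fin (Module.finrank ℂ (Forms d))) ℂ) :
    F ∈ coneIdeal Z ↔ ∀ (ω : Forms d) (h : ω ≠ 0), cls ω h ∈ Z → evalAt F ω = 0 := Iff.rfl

lemma coneIdeal_le_imp {d : ℕ} {Z Z' : Set (FolBar d)} (hZ' : IsAlgebraicSet Z')
    (h : coneIdeal Z' ≤ coneIdeal Z) : Z ⊆ Z' := by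
  obtain ⟨T, hT, rfl⟩ := hZ'
  intro x hx
  obtain ⟨ω, hω, rfl⟩ := exists_cls x
  rw [mem_locus_iff hT]
  intro F hF
  refine (mem_coneIdeal _ _).1 (h ?_) ω hω hx
  rw [mem_coneIdeal]
  intro η hη hmem
  exact (mem_locus_iff hT η hη).1 hmem F hF

lemma coneIdeal_anti {d : ℕ} {Z Z' : Set (FolBar d)} (h : Z ⊆ Z') :
    coneIdeal Z' ≤ coneIdeal Z := fun _ hF ω hω hx => hF ω hω (h hx)

instance noeth (d : ℕ) : TopologicalSpace.NoetherianSpace (FolBar d) := by
  have hiff : TopologicalSpace.NoetherianSpace (FolBar d) ↔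
      WellFoundedLT (TopologicalSpace.Closeds (FolBar d)) :=
    (TopologicalSpace.noetherianSpace_TFAE (FolBar d)).out 0 1
  refine hiff.2 ?_
  have key : ∀ s t : TopologicalSpace.Closeds (FolBar d), s < t →
      coneIdeal (t : Set (FolBar d)) < coneIdeal (s : Set (FolBar d)) := by
    intro s t hst
    refine lt_of_le_not_ge (coneIdeal_anti hst.le) fun hle => ?_
    exact hst.not_ge (coneIdeal_le_imp ((isClosed_iff _).1 s.isClosed) hle)
  have wf : WellFounded (fun a b : TopologicalSpace.Closeds (FolBar d) =>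
      coneIdeal (a : Set (FolBar d)) > coneIdeal (b : Set (FolBar d))) :=
    InvImage.wf _ (wellFounded_gt)
  exact ⟨Subrelation.wf (fun {a b} hab => key a b hab) wf⟩

lemma eval_aeval_poly {n : ℕ} (c : Fin n → Polynomial ℂ) (F : MvPolynomial (Fin n) ℂ) (s : ℂ) :
    (aeval c F : Polynomial ℂ).eval s = eval (fun i => (c i).eval s) F := by
  induction F using MvPolynomial.induction_on with
  | C a => simp
  | add p q hp hq => simp [hp, hq]
  | mul_X p i hp => simp [hp]

/-- A polynomial curve of nonzero forms which meets a closed set infinitely often lies in it. -/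
lemma curve_mem {d : ℕ} {Z : Set (FolBar d)} (hZ : IsClosed Z) (v : ℂ → Forms d)
    (hv : ∀ i, ∃ c : Polynomial ℂ, ∀ t, (Module.finBasis ℂ (Forms d)).repr (v t) i = c.eval t)
    (hne : ∀ t, v t ≠ 0) (hinf : {t | cls (v t) (hne t) ∈ Z}.Infinite) (t : ℂ) :
    cls (v t) (hne t) ∈ Z := by
  obtain ⟨T, hT, rfl⟩ := (isClosed_iff Z).1 hZ
  choose c hc using hv
  rw [mem_locus_iff hT]
  intro F hF
  have hev : ∀ s : ℂ, (aeval c F : Polynomial ℂ).eval s = evalAt F (v s) := by
    intro s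
    unfold evalAt
    rw [eval_aeval_poly]
    congr 1
    congr 1
    funext i
    exact (hc i s).symm
  have h0 : (aeval c F : Polynomial ℂ) = 0 := by
    refine Polynomial.eq_zero_of_infinite_isRoot _ (hinf.mono ?_)
    intro s hs
    rw [Set.mem_ofPred_eq, mem_locus_iff hT] at hs
    rw [Set.mem_ofPred_eq, Polynomial.IsRoot, hev, hs F hF]
  rw [← hev, h0, Polynomial.eval_zero]

lemma component_lemma {d : ℕ} (A : Set (FolBar d)) (X : Set (closure A))
    (hX : X ∈ irreducibleComponents (closure A)) :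
    ∃ a ∈ A, ∀ (v : ℂ → Forms d)
      (_ : ∀ i, ∃ c : Polynomial ℂ, ∀ t, (Module.finBasis ℂ (Forms d)).repr (v t) i = c.eval t)
      (hne : ∀ t, v t ≠ 0), cls (v 1) (hne 1) = a → (∀ t, t ≠ 0 → cls (v t) (hne t) ∈ A) →
        cls (v 0) (hne 0) ∈ Subtype.val '' X := by
  obtain ⟨U, hUo, ⟨u, hu⟩, hUX⟩ :=
    TopologicalSpace.NoetherianSpace.exists_isOpen_nonempty_subset_irreducibleComponent X hX
  obtain ⟨W, hWo, rfl⟩ := isOpen_induced_iff.1 hUo
  obtain ⟨a, haW, haA⟩ := mem_closure_iff.1 u.2 W hWo hu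
  refine ⟨a, haA, fun v hv hne h1 hA => ?_⟩
  have hfin : (irreducibleComponents (closure A)).Finite :=
    TopologicalSpace.NoetherianSpace.finite_irreducibleComponents
  have : Finite (irreducibleComponents (closure A)) := hfin.to_subtype
  have : Infinite {t : ℂ // t ≠ 0} :=
    (Set.finite_singleton (0 : ℂ)).infinite_compl.to_subtype
  let f : {t : ℂ // t ≠ 0} → irreducibleComponents (closure A) := fun t =>
    ⟨irreducibleComponent (⟨cls (v t) (hne t), subset_closure (hA t t.2)⟩ : closure A),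
      irreducibleComponent_mem_irreducibleComponents _⟩
  obtain ⟨Y, hY⟩ := Finite.exists_infinite_fiber f
  have hYcl : IsClosed (Subtype.val '' (Y : Set (closure A))) :=
    (isClosed_closure.isClosedEmbedding_subtypeVal).isClosedMap _
      (isClosed_of_mem_irreducibleComponents _ Y.2)
  have hinf : {t | cls (v t) (hne t) ∈ Subtype.val '' (Y : Set (closure A))}.Infinite := by
    have h2 : (Subtype.val '' (f ⁻¹' {Y}) : Set ℂ).Infinite :=
      (Set.infinite_coe_iff.1 hY).image Subtype.val_injective.injOn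
    refine h2.mono ?_
    rintro _ ⟨t, ht, rfl⟩
    refine ⟨⟨cls (v t) (hne t), subset_closure (hA t t.2)⟩, ?_, rfl⟩
    have : f t = Y := ht
    rw [← this]
    exact mem_irreducibleComponent
  have hall := curve_mem hYcl v hv hne hinf
  have ha : (⟨a, subset_closure haA⟩ : closure A) ∈ (Y : Set (closure A)) := by
    obtain ⟨y, hy, hya⟩ := hall 1
    rw [h1] at hya
    have : y = ⟨a, subset_closure haA⟩ := Subtype.ext hya
    rwa [← this]
  have hYX : (Y : Set (closure A)) ⊆ X := by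
    have h3 := subset_closure_inter_of_isPreirreducible_of_isOpen
      (S := (Y : Set (closure A))) Y.2.1.isPreirreducible hUo ⟨_, ha, haW⟩
    refine h3.trans ?_
    have h4 : IsClosed X := isClosed_of_mem_irreducibleComponents _ hX
    exact h4.closure_subset_iff.2 (Set.inter_subset_right.trans hUX)
  obtain ⟨y, hy, hy0⟩ := hall 0
  exact ⟨y, hYX hy, hy0⟩

/-- The value of the `1`-form `P dy - Q dx` at the point `q ∈ ℂ²` on the tangent vector `u`. -/
noncomputable def formAt (P Q : MvPolynomial (Fin 2) ℂ) (q u : Fin 2 → ℂ) : ℂ :=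
  eval q P * u 1 - eval q Q * u 0

/-- `p` is a center of the foliation `F(P dy - Q dx)`: it is a common zero of `P` and `Q`, it is
reduced, i.e. `(P_x Q_y - P_y Q_x)(p) ≠ 0`, and there are local holomorphic coordinates `(a, b)`
centred at `p` with `ω ∧ d(a² + b²) = 0` near `p` (the wedge product is evaluated on all pairs of
tangent vectors). -/
structure IsCenter (P Q : MvPolynomial (Fin 2) ℂ) (p : Fin 2 → ℂ) : Prop where
  zero_P : eval p P = 0
  zero_Q : eval p Q = 0
  reduced : eval p (pderiv 0 P * pderiv 1 Q - pderiv 1 P * pderiv 0 Q) ≠ 0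
  coords : ∃ a b : (Fin 2 → ℂ) → ℂ, AnalyticAt ℂ a p ∧ AnalyticAt ℂ b p ∧ a p = 0 ∧ b p = 0 ∧
    Function.Bijective (fun u : Fin 2 → ℂ => (fderiv ℂ a p u, fderiv ℂ b p u)) ∧
    ∀ᶠ q in 𝓝 p, ∀ u w : Fin 2 → ℂ,
      formAt P Q q u * fderiv ℂ (fun r => a r ^ 2 + b r ^ 2) q w
       - formAt P Q q w * fderiv ℂ (fun r => a r ^ 2 + b r ^ 2) q u = 0

/-- The foliation `x ∈ FolBar d` has a center. -/
def HasCenter {d : ℕ} (x : FolBar d) : Prop :=
  ∃ (ω : Forms d) (h : ω ≠ 0), cls ω h = x ∧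
    ∃ p, IsCenter (ω.1 : MvPolynomial (Fin 2) ℂ) (ω.2 : MvPolynomial (Fin 2) ℂ) p

/-- The set `F(d)` of foliations of degree `d`: classes of `P dy - Q dx` with `P, Q` coprime and
`max (deg P) (deg Q) = d`. -/
def Fol (d : ℕ) : Set (FolBar d) :=
  {x | ∃ (ω : Forms d) (h : ω ≠ 0), cls ω h = x ∧
    IsRelPrime (ω.1 : MvPolynomial (Fin 2) ℂ) (ω.2 : MvPolynomial (Fin 2) ℂ) ∧
    max (ω.1 : MvPolynomial (Fin 2) ℂ).totalDegree (ω.2 : MvPolynomial (Fin 2) ℂ).totalDegree = d}

/-- `M(d)`: the Zariski closure in `FolBar d` of the set of foliations of degree `d` with at least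
one center. -/
def M (d : ℕ) : Set (FolBar d) := closure {x | x ∈ Fol d ∧ HasCenter x}

/-- `L(d+1)`: the foliations `F(df)`, `f` a polynomial of degree at most `d + 1`; here
`df = f_x dx + f_y dy` is the pair `(P, Q) = (f_y, -f_x)`. -/
def L (d : ℕ) : Set (FolBar d) :=
  {x | ∃ f : MvPolynomial (Fin 2) ℂ, f.totalDegree ≤ d + 1 ∧
    ∃ (ω : Forms d) (h : ω ≠ 0), cls ω h = x ∧
      (ω.1 : MvPolynomial (Fin 2) ℂ) = pderiv 1 f ∧ (ω.2 : MvPolynomial (Fin 2) ℂ) = -pderiv 0 f}


/-- `P ↦ P(p + T (x - p))`, a polynomial in the parameter `T`. -/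
noncomputable def R (p : Fin 2 → ℂ) :
    MvPolynomial (Fin 2) ℂ →ₐ[ℂ] Polynomial (MvPolynomial (Fin 2) ℂ) :=
  aeval (fun i => Polynomial.C (C (p i)) + Polynomial.X * Polynomial.C (X i - C (p i)))

lemma R_C (p : Fin 2 → ℂ) (a : ℂ) : R p (C a) = Polynomial.C (C a) := by
  unfold R
  rw [← MvPolynomial.algebraMap_eq, AlgHom.commutes]
  rfl

lemma R_X (p : Fin 2 → ℂ) (i : Fin 2) :
    R p (X i) = Polynomial.C (C (p i)) + Polynomial.X * Polynomial.C (X i - C (p i)) := by
  unfold R
  rw [aeval_X]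

lemma R_coeff_zero (p : Fin 2 → ℂ) (P : MvPolynomial (Fin 2) ℂ) :
    (R p P).coeff 0 = C (eval p P) := by
  induction P using MvPolynomial.induction_on with
  | C a => rw [R_C]; simp
  | add f g hf hg => simp [hf, hg]
  | mul_X f i hf => 
    rw [map_mul, Polynomial.mul_coeff_zero, hf, R_X]
    simp

lemma R_coeff_one (p : Fin 2 → ℂ) (P : MvPolynomial (Fin 2) ℂ) :
    (R p P).coeff 1 = ∑ i, C (eval p (pderiv i P)) * (X i - C (p i)) := by
  induction P using MvPolynomial.induction_on with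
  | C a => rw [R_C]; simp
  | add f g hf hg => simp [hf, hg, Fin.sum_univ_two]; ring
  | mul_X f i hf => 
    rw [map_mul, Polynomial.coeff_mul, Finset.Nat.antidiagonal_succ]
    simp only [Finset.Nat.antidiagonal_zero, Finset.map_singleton, Finset.sum_cons,
      Finset.sum_singleton, R_coeff_zero, R_X]
    simp only [Function.Embedding.prodMap, Function.Embedding.coeFn_mk, Prod.map,
      Function.Embedding.refl_apply, hf, Nat.succ_eq_add_one, zero_add]
    simp only [Polynomial.coeff_add, Polynomial.coeff_C_zero,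
      Polynomial.mul_coeff_zero, Polynomial.coeff_X_zero, zero_mul, add_zero,
      Polynomial.coeff_X_mul, Derivation.leibniz, pderiv_X, smul_eq_mul, map_add, map_mul, eval_X]
    have h1 : (Polynomial.C (C (p i) : MvPolynomial (Fin 2) ℂ)).coeff 1 = 0 := by
      rw [Polynomial.coeff_C]; simp
    rw [h1]
    fin_cases i <;> simp [Fin.sum_univ_two, Pi.single_apply] <;> ring

lemma R_eval (p q : Fin 2 → ℂ) (t : ℂ) (P : MvPolynomial (Fin 2) ℂ) :
    eval q ((R p P).eval (C t)) = eval (fun i => p i + t * (q i - p i)) P := by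
  induction P using MvPolynomial.induction_on with
  | C a =>
    rw [R_C]; simp
  | add f g hf hg => simp [hf, hg]
  | mul_X f i hf => simp [hf, R_X]

/-- substitution `x ↦ p + t (x - p)` -/
noncomputable def E (p : Fin 2 → ℂ) (t : ℂ) : MvPolynomial (Fin 2) ℂ →ₐ[ℂ] MvPolynomial (Fin 2) ℂ :=
  aeval (fun i => C (p i) + C t * (X i - C (p i)))

lemma eval_E (p q : Fin 2 → ℂ) (t : ℂ) (P : MvPolynomial (Fin 2) ℂ) :
    eval q (E p t P) = eval (fun i => p i + t * (q i - p i)) P := by
  induction P using MvPolynomial.induction_on with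
  | C a => 
    rw [← MvPolynomial.algebraMap_eq, AlgHom.commutes]; simp
  | add f g hf hg => simp [hf, hg]
  | mul_X f i hf =>
    rw [map_mul, map_mul, hf, map_mul]
    congr 1
    simp [E]

lemma R_eval_eq_E (p : Fin 2 → ℂ) (t : ℂ) (P : MvPolynomial (Fin 2) ℂ) :
    (R p P).eval (C t) = E p t P := by
  apply MvPolynomial.funext
  intro q
  rw [R_eval, eval_E]

lemma E_E (p : Fin 2 → ℂ) (s t : ℂ) (P : MvPolynomial (Fin 2) ℂ) :
    E p t (E p s P) = E p (t * s) P := by
  apply MvPolynomial.funext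
  intro q
  rw [eval_E, eval_E, eval_E]
  congr 1
  congr 1
  funext i
  ring

lemma E_one (p : Fin 2 → ℂ) (P : MvPolynomial (Fin 2) ℂ) : E p 1 P = P := by
  apply MvPolynomial.funext
  intro q
  rw [eval_E]
  congr 1
  congr 1
  funext i
  ring

lemma totalDegree_lin (p : Fin 2 → ℂ) (i : Fin 2) :
    (X i - C (p i) : MvPolynomial (Fin 2) ℂ).totalDegree ≤ 1 := by
  refine (totalDegree_sub _ _).trans ?_
  simp

lemma totalDegree_E_le (p : Fin 2 → ℂ) (t : ℂ) (P : MvPolynomial (Fin 2) ℂ) :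
    (E p t P).totalDegree ≤ P.totalDegree := by
  have hlin : ∀ i : Fin 2,
      (C (p i) + C t * (X i - C (p i)) : MvPolynomial (Fin 2) ℂ).totalDegree ≤ 1 := by
    intro i
    refine (totalDegree_add _ _).trans (max_le (by simp) ?_)
    refine (totalDegree_mul _ _).trans ?_
    rw [totalDegree_C, zero_add]
    exact totalDegree_lin p i
  unfold E
  rw [aeval_def, eval₂_eq]
  refine totalDegree_finsetSum_le fun m hm => ?_
  refine (totalDegree_mul _ _).trans ?_
  rw [MvPolynomial.algebraMap_eq, totalDegree_C, zero_add]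
  refine (totalDegree_finsetProd _ _).trans ?_
  refine le_trans ?_ (le_totalDegree hm)
  rw [Finsupp.sum]
  refine Finset.sum_le_sum fun i _ => ?_
  refine (totalDegree_pow _ _).trans ?_
  calc _ ≤ m i * 1 := Nat.mul_le_mul_left _ (hlin i)
    _ = m i := mul_one _

lemma totalDegree_E (p : Fin 2 → ℂ) {t : ℂ} (ht : t ≠ 0) (P : MvPolynomial (Fin 2) ℂ) :
    (E p t P).totalDegree = P.totalDegree := by
  refine le_antisymm (totalDegree_E_le p t P) ?_
  conv_lhs => rw [← E_one p P, ← inv_mul_cancel₀ ht, ← E_E]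
  exact totalDegree_E_le _ _ _

lemma pderiv_E (p : Fin 2 → ℂ) (t : ℂ) (P : MvPolynomial (Fin 2) ℂ) (i : Fin 2) :
    pderiv i (E p t P) = C t * E p t (pderiv i P) := by
  induction P using MvPolynomial.induction_on with
  | C a =>
    rw [← MvPolynomial.algebraMap_eq, AlgHom.commutes]; simp
  | add f g hf hg => simp [hf, hg]; ring
  | mul_X f j hf =>
    have hX : E p t (X j) = C (p j) + C t * (X j - C (p j)) := by simp [E]
    rw [map_mul, Derivation.leibniz, hf, Derivation.leibniz]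
    simp only [smul_eq_mul, map_add, map_mul, hX, pderiv_X, pderiv_C, map_sub, Derivation.leibniz]
    by_cases hij : i = j
    · subst hij; simp; ring
    · have : (Pi.single i (1 : MvPolynomial (Fin 2) ℂ) : Fin 2 → MvPolynomial (Fin 2) ℂ) j = 0 := by
        rw [Pi.single_apply, if_neg (Ne.symm hij)]
      simp [this]; ring

/-- The curve `t ↦ P(p + t (x - p)) / t`. -/
noncomputable def pt (p : Fin 2 → ℂ) (P : MvPolynomial (Fin 2) ℂ) (t : ℂ) :
    MvPolynomial (Fin 2) ℂ := ((R p P).divX).eval (C t)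

lemma pt_mul (p : Fin 2 → ℂ) (P : MvPolynomial (Fin 2) ℂ) (hP : eval p P = 0) (t : ℂ) :
    pt p P t * C t = E p t P := by
  rw [← R_eval_eq_E]
  conv_rhs => rw [← Polynomial.divX_mul_X_add (R p P)]
  rw [R_coeff_zero, hP]
  simp [pt]

lemma pt_eq (p : Fin 2 → ℂ) (P : MvPolynomial (Fin 2) ℂ) (hP : eval p P = 0) {t : ℂ}
    (ht : t ≠ 0) : pt p P t = C t⁻¹ * E p t P := by
  rw [← pt_mul p P hP t, mul_comm, mul_assoc, ← C_mul, mul_inv_cancel₀ ht, C_1, mul_one]

lemma pt_zero (p : Fin 2 → ℂ) (P : MvPolynomial (Fin 2) ℂ) :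
    pt p P 0 = ∑ i, C (eval p (pderiv i P)) * (X i - C (p i)) := by
  rw [← R_coeff_one]
  unfold pt
  rw [C_0, ← Polynomial.coeff_zero_eq_eval_zero, Polynomial.coeff_divX]

lemma pt_one (p : Fin 2 → ℂ) (P : MvPolynomial (Fin 2) ℂ) (hP : eval p P = 0) :
    pt p P 1 = P := by
  rw [pt_eq p P hP one_ne_zero, E_one]; simp

lemma totalDegree_pt (p : Fin 2 → ℂ) (P : MvPolynomial (Fin 2) ℂ) (hP : eval p P = 0) {t : ℂ}
    (ht : t ≠ 0) : (pt p P t).totalDegree = P.totalDegree := by
  rw [← totalDegree_E p ht P, pt_eq p P hP ht]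
  refine le_antisymm ?_ ?_
  · refine (totalDegree_mul _ _).trans ?_
    rw [totalDegree_C, zero_add]
  · have h1 : E p t P = C t * (C t⁻¹ * E p t P) := by
      rw [← mul_assoc, ← C_mul, mul_inv_cancel₀ ht, C_1, one_mul]
    conv_lhs => rw [h1]
    refine (totalDegree_mul _ _).trans ?_
    rw [totalDegree_C, zero_add]

lemma totalDegree_pt_zero (p : Fin 2 → ℂ) (P : MvPolynomial (Fin 2) ℂ) :
    (pt p P 0).totalDegree ≤ 1 := by
  rw [pt_zero]
  refine totalDegree_finsetSum_le fun i _ => ?_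
  refine (totalDegree_mul _ _).trans ?_
  rw [totalDegree_C, zero_add]
  exact totalDegree_lin p i

lemma totalDegree_pt_le {d : ℕ} (hd : 1 ≤ d) (p : Fin 2 → ℂ) (P : MvPolynomial (Fin 2) ℂ)
    (hP : eval p P = 0) (hPd : P.totalDegree ≤ d) (t : ℂ) : (pt p P t).totalDegree ≤ d := by
  by_cases ht : t = 0
  · subst ht
    exact (totalDegree_pt_zero p P).trans hd
  · rw [totalDegree_pt p P hP ht]; exact hPd

lemma eval_pt_mul (p q : Fin 2 → ℂ) (P : MvPolynomial (Fin 2) ℂ) (hP : eval p P = 0) (t : ℂ) :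
    eval q (pt p P t) * t = eval (fun i => p i + t * (q i - p i)) P := by
  rw [← eval_E, ← pt_mul p P hP t, map_mul, eval_C]

lemma eval_pt_self (p : Fin 2 → ℂ) (P : MvPolynomial (Fin 2) ℂ) (hP : eval p P = 0) (t : ℂ) :
    eval p (pt p P t) = 0 := by
  by_cases ht : t = 0
  · subst ht; rw [pt_zero]; simp
  · have := eval_pt_mul p p P hP t
    simp only [sub_self, mul_zero, add_zero, hP] at this
    exact (mul_eq_zero.1 this).resolve_right ht

lemma eval_pderiv_pt (p : Fin 2 → ℂ) (P : MvPolynomial (Fin 2) ℂ) (hP : eval p P = 0) (t : ℂ)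
    (i : Fin 2) : eval p (pderiv i (pt p P t)) = eval p (pderiv i P) := by
  by_cases ht : t = 0
  · subst ht
    rw [pt_zero]
    fin_cases i <;> simp [Fin.sum_univ_two, pderiv_X, Derivation.leibniz]
  · have h1 := congrArg (pderiv i) (pt_mul p P hP t)
    rw [pderiv_E, Derivation.leibniz] at h1
    simp only [pderiv_C, smul_eq_mul, mul_zero, zero_add] at h1
    have h2 := congrArg (eval p) h1
    simp only [map_mul, eval_C, eval_E, sub_self, mul_zero, add_zero] at h2
    exact mul_left_cancel₀ ht h2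

lemma isRelPrime_pt (p : Fin 2 → ℂ) (P Q : MvPolynomial (Fin 2) ℂ) (hP : eval p P = 0)
    (hQ : eval p Q = 0) (hPQ : IsRelPrime P Q) {t : ℂ} (ht : t ≠ 0) :
    IsRelPrime (pt p P t) (pt p Q t) := by
  intro a ha hb
  have h1 : a ∣ E p t P := by rw [← pt_mul p P hP t]; exact ha.mul_right _
  have h2 : a ∣ E p t Q := by rw [← pt_mul p Q hQ t]; exact hb.mul_right _
  have h3 : E p t⁻¹ a ∣ P := by
    have := map_dvd (E p t⁻¹) h1
    rwa [E_E, inv_mul_cancel₀ ht, E_one] at this
  have h4 : E p t⁻¹ a ∣ Q := by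
    have := map_dvd (E p t⁻¹) h2
    rwa [E_E, inv_mul_cancel₀ ht, E_one] at this
  have h5 := hPQ h3 h4
  have h6 := h5.map (E p t)
  rwa [E_E, mul_inv_cancel₀ ht, E_one] at h6

/-- linear functionals of the curve are polynomial in `t` -/
lemma pt_poly (p : Fin 2 → ℂ) (P : MvPolynomial (Fin 2) ℂ) (g : MvPolynomial (Fin 2) ℂ →ₗ[ℂ] ℂ) :
    ∃ c : Polynomial ℂ, ∀ t, g (pt p P t) = c.eval t := by
  refine ⟨∑ k ∈ Finset.range ((R p P).divX.natDegree + 1),
    Polynomial.C (g ((R p P).divX.coeff k)) * Polynomial.X ^ k, fun t => ?_⟩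
  unfold pt
  rw [Polynomial.eval_eq_sum_range, map_sum, Polynomial.eval_finsetSum]
  refine Finset.sum_congr rfl fun k _ => ?_
  rw [← C_pow, mul_comm, ← smul_eq_C_mul, map_smul, Polynomial.eval_mul, Polynomial.eval_C,
    Polynomial.eval_pow, Polynomial.eval_X, smul_eq_mul, mul_comm]

lemma hasDerivAt_eval (p u : Fin 2 → ℂ) (P : MvPolynomial (Fin 2) ℂ) :
    HasDerivAt (fun s : ℂ => eval (p + s • u) P) (∑ i, eval p (pderiv i P) * u i) 0 := by
  have h1 : (fun s : ℂ => eval (p + s • u) P) =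
      fun s : ℂ => ((R p P).map (eval (p + u))).eval s := by
    funext s
    have := R_eval p (p + u) s P
    rw [Polynomial.eval_map]
    have h2 : eval (p + u) ((R p P).eval (C s)) = Polynomial.eval₂ (eval (p + u)) s (R p P) := by
      rw [← Polynomial.eval₂_at_apply, eval_C]
    rw [← h2, this]
    congr 1
    congr 1
    funext i
    simp
  rw [h1]
  have h3 := ((R p P).map (eval (p + u))).hasDerivAt 0
  have h4 : Polynomial.eval 0 (Polynomial.derivative ((R p P).map (eval (p + u)))) =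
      ∑ i, eval p (pderiv i P) * u i := by
    rw [← Polynomial.coeff_zero_eq_eval_zero, Polynomial.coeff_derivative, Polynomial.coeff_map,
      zero_add, R_coeff_one]
    simp
  rwa [h4] at h3

/-- the linear part of the vector field -/
noncomputable def Jv (P Q : MvPolynomial (Fin 2) ℂ) (p u : Fin 2 → ℂ) : Fin 2 → ℂ :=
  ![∑ i, eval p (pderiv i P) * u i, ∑ i, eval p (pderiv i Q) * u i]

lemma fderiv_sq (a b : (Fin 2 → ℂ) → ℂ) (q w : Fin 2 → ℂ) (ha : DifferentiableAt ℂ a q)
    (hb : DifferentiableAt ℂ b q) :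
    fderiv ℂ (fun r => a r ^ 2 + b r ^ 2) q w =
      2 * (a q * fderiv ℂ a q w + b q * fderiv ℂ b q w) := by
  have h : HasFDerivAt (fun r => a r ^ 2 + b r ^ 2)
      ((2 * a q) • fderiv ℂ a q + (2 * b q) • fderiv ℂ b q) q := by
    have h1 := (ha.hasFDerivAt.pow 2).add (hb.hasFDerivAt.pow 2)
    refine h1.congr_fderiv ?_
    ext v
    simp
  rw [h.fderiv]
  simp
  ring

/-- the key identity: `A(u) A(Ju) + B(u) B(Ju) = 0` -/
lemma quad_identity {P Q : MvPolynomial (Fin 2) ℂ} {p : Fin 2 → ℂ} (hP : eval p P = 0)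
    (hQ : eval p Q = 0) {a b : (Fin 2 → ℂ) → ℂ} (ha : AnalyticAt ℂ a p) (hb : AnalyticAt ℂ b p)
    (ha0 : a p = 0) (hb0 : b p = 0)
    (hw : ∀ᶠ q in 𝓝 p, ∀ u w : Fin 2 → ℂ,
      formAt P Q q u * fderiv ℂ (fun r => a r ^ 2 + b r ^ 2) q w
       - formAt P Q q w * fderiv ℂ (fun r => a r ^ 2 + b r ^ 2) q u = 0) (u : Fin 2 → ℂ) :
    fderiv ℂ a p u * fderiv ℂ a p (Jv P Q p u) + fderiv ℂ b p u * fderiv ℂ b p (Jv P Q p u) = 0 := by
  -- the vector field annihilates the function near p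
  have h1 : ∀ᶠ q in 𝓝 p, a q * fderiv ℂ a q ![eval q P, eval q Q] +
      b q * fderiv ℂ b q ![eval q P, eval q Q] = 0 := by
    filter_upwards [hw, ha.eventually_analyticAt, hb.eventually_analyticAt] with q hq haq hbq
    have h2 := hq ![1, 0] ![0, 1]
    rw [fderiv_sq a b q _ haq.differentiableAt hbq.differentiableAt,
      fderiv_sq a b q _ haq.differentiableAt hbq.differentiableAt] at h2
    have hV : (![eval q P, eval q Q] : Fin 2 → ℂ) = eval q P • ![1, 0] + eval q Q • ![0, 1] := by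
      ext i; fin_cases i <;> simp
    rw [hV]
    simp only [map_add, map_smul, smul_eq_mul]
    simp only [formAt] at h2
    simp at h2
    linear_combination (-1 / 2) * h2
  -- restrict to the line through `p` with direction `u`
  have hline : Filter.Tendsto (fun s : ℂ => p + s • u) (𝓝[≠] 0) (𝓝 p) := by
    have : Filter.Tendsto (fun s : ℂ => p + s • u) (𝓝 0) (𝓝 (p + (0 : ℂ) • u)) := by
      apply Continuous.tendsto; fun_prop
    rw [zero_smul, add_zero] at this
    exact this.mono_left nhdsWithin_le_nhds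
  have hda : HasDerivAt (fun s : ℂ => a (p + s • u)) (fderiv ℂ a p u) 0 := by
    have h3 : HasFDerivAt a (fderiv ℂ a p) (p + (0 : ℂ) • u) := by
      rw [zero_smul, add_zero]; exact ha.differentiableAt.hasFDerivAt
    have h4 : HasDerivAt (fun s : ℂ => p + s • u) u 0 := by
      have := ((hasDerivAt_id (0 : ℂ)).smul_const u).const_add p
      simpa using this
    exact h3.comp_hasDerivAt (0 : ℂ) h4
  have hdb : HasDerivAt (fun s : ℂ => b (p + s • u)) (fderiv ℂ b p u) 0 := by
    have h3 : HasFDerivAt b (fderiv ℂ b p) (p + (0 : ℂ) • u) := by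
      rw [zero_smul, add_zero]; exact hb.differentiableAt.hasFDerivAt
    have h4 : HasDerivAt (fun s : ℂ => p + s • u) u 0 := by
      have := ((hasDerivAt_id (0 : ℂ)).smul_const u).const_add p
      simpa using this
    exact h3.comp_hasDerivAt (0 : ℂ) h4
  have hta := hda.tendsto_slope_zero
  have htb := hdb.tendsto_slope_zero
  have htP := (hasDerivAt_eval p u P).tendsto_slope_zero
  have htQ := (hasDerivAt_eval p u Q).tendsto_slope_zero
  simp only [zero_add, zero_smul, add_zero, ha0, hb0, hP, hQ, sub_zero] at hta htb htP htQ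
  have htV : Filter.Tendsto (fun s : ℂ => (![s⁻¹ • eval (p + s • u) P, s⁻¹ • eval (p + s • u) Q] :
      Fin 2 → ℂ)) (𝓝[≠] 0) (𝓝 (Jv P Q p u)) := by
    rw [tendsto_pi_nhds]
    intro i
    fin_cases i
    · exact htP
    · exact htQ
  have hcA : Filter.Tendsto (fun s : ℂ => fderiv ℂ a (p + s • u)) (𝓝[≠] 0) (𝓝 (fderiv ℂ a p)) :=
    ha.fderiv.continuousAt.tendsto.comp hline
  have hcB : Filter.Tendsto (fun s : ℂ => fderiv ℂ b (p + s • u)) (𝓝[≠] 0) (𝓝 (fderiv ℂ b p)) :=
    hb.fderiv.continuousAt.tendsto.comp hline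
  have happA := ((isBoundedBilinearMap_apply (𝕜 := ℂ) (E := Fin 2 → ℂ) (F := ℂ)).continuous.tendsto
    (fderiv ℂ a p, Jv P Q p u)).comp (hcA.prodMk_nhds htV)
  have happB := ((isBoundedBilinearMap_apply (𝕜 := ℂ) (E := Fin 2 → ℂ) (F := ℂ)).continuous.tendsto
    (fderiv ℂ b p, Jv P Q p u)).comp (hcB.prodMk_nhds htV)
  have hlim := (hta.mul happA).add (htb.mul happB)
  refine tendsto_nhds_unique hlim ?_
  refine Filter.Tendsto.congr' ?_ tendsto_const_nhds
  filter_upwards [hline.eventually h1] with s hs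
  have hV : (![s⁻¹ • eval (p + s • u) P, s⁻¹ • eval (p + s • u) Q] : Fin 2 → ℂ) =
      s⁻¹ • ![eval (p + s • u) P, eval (p + s • u) Q] := by
    ext i; fin_cases i <;> simp
  simp only [Function.comp_apply]
  rw [hV, map_smul, map_smul]
  simp only [smul_eq_mul]
  linear_combination (-(s⁻¹ * s⁻¹)) * hs

lemma clm_apply_fin2 (A : (Fin 2 → ℂ) →L[ℂ] ℂ) (u : Fin 2 → ℂ) :
    A u = A ![1, 0] * u 0 + A ![0, 1] * u 1 := by
  have hu : u = u 0 • ![1, 0] + u 1 • ![0, 1] := by
    ext i; fin_cases i <;> simp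
  conv_lhs => rw [hu]
  rw [map_add, map_smul, map_smul, smul_eq_mul, smul_eq_mul]
  ring

lemma trace_zero {P Q : MvPolynomial (Fin 2) ℂ} {p : Fin 2 → ℂ} (h : IsCenter P Q p) :
    eval p (pderiv 0 P) + eval p (pderiv 1 Q) = 0 := by
  obtain ⟨a, b, ha, hb, ha0, hb0, hbij, hw⟩ := h.coords
  have hq := quad_identity h.zero_P h.zero_Q ha hb ha0 hb0 hw
  obtain ⟨u1, hu1⟩ := hbij.2 (1, 0)
  obtain ⟨u2, hu2⟩ := hbij.2 (0, 1)
  simp only [Prod.mk.injEq] at hu1 hu2
  have h1 := hq u1
  have h2 := hq u2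
  rw [hu1.1, hu1.2] at h1
  rw [hu2.1, hu2.2] at h2
  have e1 := hu1.1
  have e2 := hu1.2
  have e3 := hu2.1
  have e4 := hu2.2
  rw [clm_apply_fin2] at e1 e2 e3 e4 h1 h2
  rw [clm_apply_fin2 (fderiv ℂ b p)] at h1 h2
  simp only [Jv, Fin.sum_univ_two, Matrix.cons_val_zero, Matrix.cons_val_one] at h1 h2
  set A0 := fderiv ℂ a p ![1, 0]
  set A1 := fderiv ℂ a p ![0, 1]
  set B0 := fderiv ℂ b p ![1, 0]
  set B1 := fderiv ℂ b p ![0, 1]
  have hM : (!![A0, A1; B0, B1] : Matrix (Fin 2) (Fin 2) ℂ) * !![u1 0, u2 0; u1 1, u2 1] = 1 := by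
    rw [Matrix.mul_fin_two, e1, e2, e3, e4, Matrix.one_fin_two]
  have hM' := mul_eq_one_comm.1 hM
  rw [Matrix.mul_fin_two, Matrix.one_fin_two] at hM'
  have f1 : u1 0 * A0 + u2 0 * B0 = 1 := by simpa using congrFun (congrFun hM' 0) 0
  have f2 : u1 0 * A1 + u2 0 * B1 = 0 := by simpa using congrFun (congrFun hM' 0) 1
  have f3 : u1 1 * A0 + u2 1 * B0 = 0 := by simpa using congrFun (congrFun hM' 1) 0
  have f4 : u1 1 * A1 + u2 1 * B1 = 1 := by simpa using congrFun (congrFun hM' 1) 1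
  linear_combination h1 + h2 - (eval p (pderiv 0 P)) * f1 - (eval p (pderiv 1 P)) * f3
    - (eval p (pderiv 0 Q)) * f2 - (eval p (pderiv 1 Q)) * f4

lemma eval_pt_zero (p q : Fin 2 → ℂ) (P : MvPolynomial (Fin 2) ℂ) :
    eval q (pt p P 0) = ∑ i, eval p (pderiv i P) * (q i - p i) := by
  rw [pt_zero]; simp

lemma reduced_pt {P Q : MvPolynomial (Fin 2) ℂ} {p : Fin 2 → ℂ} (h : IsCenter P Q p) (t : ℂ) :
    eval p (pderiv 0 (pt p P t) * pderiv 1 (pt p Q t) -
      pderiv 1 (pt p P t) * pderiv 0 (pt p Q t)) ≠ 0 := by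
  have := h.reduced
  simpa only [map_sub, map_mul, eval_pderiv_pt p P h.zero_P, eval_pderiv_pt p Q h.zero_Q]
    using this

lemma isCenter_pt_zero {P Q : MvPolynomial (Fin 2) ℂ} {p : Fin 2 → ℂ} (h : IsCenter P Q p) :
    IsCenter (pt p P 0) (pt p Q 0) p := by
  refine ⟨eval_pt_self p P h.zero_P 0, eval_pt_self p Q h.zero_Q 0, reduced_pt h 0, ?_⟩
  obtain ⟨a, b, ha, hb, ha0, hb0, hbij, hw⟩ := h.coords
  have hq := quad_identity h.zero_P h.zero_Q ha hb ha0 hb0 hw
  set A := fderiv ℂ a p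
  set B := fderiv ℂ b p
  have hdA : ∀ q, HasFDerivAt (fun q : Fin 2 → ℂ => A (q - p)) A q := by
    intro q
    exact A.hasFDerivAt.comp q ((hasFDerivAt_id q).sub_const p)
  have hdB : ∀ q, HasFDerivAt (fun q : Fin 2 → ℂ => B (q - p)) B q := by
    intro q
    exact B.hasFDerivAt.comp q ((hasFDerivAt_id q).sub_const p)
  refine ⟨fun q => A (q - p), fun q => B (q - p), ?_, ?_, by simp, by simp, ?_, ?_⟩
  · exact (A.analyticAt _).comp (analyticAt_id.sub analyticAt_const)
  · exact (B.analyticAt _).comp (analyticAt_id.sub analyticAt_const)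
  · rw [(hdA p).fderiv, (hdB p).fderiv]
    exact hbij
  · refine Filter.Eventually.of_forall fun q u w => ?_
    rw [fderiv_sq _ _ q _ (hdA q).differentiableAt (hdB q).differentiableAt,
      fderiv_sq _ _ q _ (hdA q).differentiableAt (hdB q).differentiableAt, (hdA q).fderiv,
      (hdB q).fderiv]
    have h1 := hq (q - p)
    simp only [formAt, eval_pt_zero]
    rw [clm_apply_fin2 A w, clm_apply_fin2 A u, clm_apply_fin2 B w, clm_apply_fin2 B u]
    rw [clm_apply_fin2 A (Jv P Q p (q - p)), clm_apply_fin2 B (Jv P Q p (q - p))] at h1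
    simp only [Jv, Fin.sum_univ_two, Matrix.cons_val_zero, Matrix.cons_val_one, Pi.sub_apply] at h1 ⊢
    linear_combination (-2 * (u 0 * w 1 - u 1 * w 0)) * h1

lemma isCenter_pt {P Q : MvPolynomial (Fin 2) ℂ} {p : Fin 2 → ℂ} (h : IsCenter P Q p) {t : ℂ}
    (ht : t ≠ 0) : IsCenter (pt p P t) (pt p Q t) p := by
  refine ⟨eval_pt_self p P h.zero_P t, eval_pt_self p Q h.zero_Q t, reduced_pt h t, ?_⟩
  obtain ⟨a, b, ha, hb, ha0, hb0, hbij, hw⟩ := h.coords
  set H : (Fin 2 → ℂ) → (Fin 2 → ℂ) := fun q => p + t • (q - p) with hH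
  have hHp : H p = p := by simp [hH]
  have hdH : ∀ q, HasFDerivAt H (t • ContinuousLinearMap.id ℂ (Fin 2 → ℂ)) q := by
    intro q
    exact (((hasFDerivAt_id q).sub_const p).const_smul t).const_add p
  have hHan : AnalyticAt ℂ H p := by
    rw [hH]
    fun_prop
  have hHc : Filter.Tendsto H (𝓝 p) (𝓝 p) := by
    have := hHan.continuousAt.tendsto
    rwa [hHp] at this
  have haH : AnalyticAt ℂ (fun q => a (H q)) p := by
    have h1 : AnalyticAt ℂ a (H p) := by rw [hHp]; exact ha
    exact h1.comp hHan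
  have hbH : AnalyticAt ℂ (fun q => b (H q)) p := by
    have h1 : AnalyticAt ℂ b (H p) := by rw [hHp]; exact hb
    exact h1.comp hHan
  have hfa : fderiv ℂ (fun q => a (H q)) p = t • fderiv ℂ a p := by
    have h1 : HasFDerivAt a (fderiv ℂ a p) (H p) := by
      rw [hHp]; exact ha.differentiableAt.hasFDerivAt
    have h2 := (h1.comp p (hdH p)).fderiv
    rw [Function.comp_def] at h2
    rw [h2]; ext v; simp
  have hfb : fderiv ℂ (fun q => b (H q)) p = t • fderiv ℂ b p := by
    have h1 : HasFDerivAt b (fderiv ℂ b p) (H p) := by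
      rw [hHp]; exact hb.differentiableAt.hasFDerivAt
    have h2 := (h1.comp p (hdH p)).fderiv
    rw [Function.comp_def] at h2
    rw [h2]; ext v; simp
  refine ⟨fun q => a (H q), fun q => b (H q), haH, hbH, by simp [hHp, ha0], by simp [hHp, hb0],
    ?_, ?_⟩
  · rw [hfa, hfb]
    constructor
    · intro u v huv
      simp only [_root_.smul_apply, smul_eq_mul, Prod.mk.injEq] at huv
      apply hbij.1
      simp only [Prod.mk.injEq]
      exact ⟨mul_left_cancel₀ ht huv.1, mul_left_cancel₀ ht huv.2⟩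
    · rintro ⟨x, y⟩
      obtain ⟨u, hu⟩ := hbij.2 (t⁻¹ * x, t⁻¹ * y)
      refine ⟨u, ?_⟩
      simp only [Prod.mk.injEq] at hu
      simp only [_root_.smul_apply, smul_eq_mul, hu.1, hu.2]
      rw [← mul_assoc, ← mul_assoc, mul_inv_cancel₀ ht, one_mul, one_mul]
  · filter_upwards [hHc.eventually hw, hHc.eventually ha.eventually_analyticAt,
      hHc.eventually hb.eventually_analyticAt] with q hq haq hbq u w
    have hF : HasFDerivAt (fun r => a r ^ 2 + b r ^ 2)
        (fderiv ℂ (fun r => a r ^ 2 + b r ^ 2) (H q)) (H q) := by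
      apply DifferentiableAt.hasFDerivAt
      exact (haq.differentiableAt.pow 2).add (hbq.differentiableAt.pow 2)
    have hFH : ∀ v, fderiv ℂ (fun r => a (H r) ^ 2 + b (H r) ^ 2) q v =
        t * fderiv ℂ (fun r => a r ^ 2 + b r ^ 2) (H q) v := by
      intro v
      have h2 := (hF.comp q (hdH q)).fderiv
      rw [Function.comp_def] at h2
      rw [h2]; simp
    rw [hFH, hFH]
    have h3 := hq u w
    have hPe : eval q (pt p P t) * t = eval (H q) P := by
      rw [eval_pt_mul p q P h.zero_P t]; rfl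
    have hQe : eval q (pt p Q t) * t = eval (H q) Q := by
      rw [eval_pt_mul p q Q h.zero_Q t]; rfl
    simp only [formAt] at h3 ⊢
    rw [← hPe, ← hQe] at h3
    linear_combination h3

/-- a polynomial with prescribed linear Hamiltonian form -/
lemma hamiltonian_pt_zero {P Q : MvPolynomial (Fin 2) ℂ} {p : Fin 2 → ℂ} (h : IsCenter P Q p) :
    ∃ f : MvPolynomial (Fin 2) ℂ, f.totalDegree ≤ 2 ∧ pt p P 0 = pderiv 1 f ∧
      pt p Q 0 = - pderiv 0 f := by
  have htr := trace_zero h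
  set α := eval p (pderiv 0 P)
  set β := eval p (pderiv 1 P)
  set γ := eval p (pderiv 0 Q)
  set δ := eval p (pderiv 1 Q)
  have hδ : δ = -α := by linear_combination htr
  refine ⟨C (-γ / 2) * (X 0 - C (p 0)) ^ 2 + C α * ((X 0 - C (p 0)) * (X 1 - C (p 1))) +
    C (β / 2) * (X 1 - C (p 1)) ^ 2, ?_, ?_, ?_⟩
  · have hl := totalDegree_lin p
    have h2 : ∀ (c : ℂ) (i j : Fin 2), (C c * ((X i - C (p i)) * (X j - C (p j))) :
        MvPolynomial (Fin 2) ℂ).totalDegree ≤ 2 := by
      intro c i j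
      refine (totalDegree_mul _ _).trans ?_
      rw [totalDegree_C, zero_add]
      exact (totalDegree_mul _ _).trans (add_le_add (hl i) (hl j))
    rw [sq, sq]
    exact (totalDegree_add _ _).trans (max_le ((totalDegree_add _ _).trans
      (max_le (h2 _ _ _) (h2 _ _ _))) (h2 _ _ _))
  · rw [pt_zero, Fin.sum_univ_two]
    simp only [map_add, Derivation.leibniz, Derivation.leibniz_pow, pderiv_C, pderiv_X, map_sub,
      smul_eq_mul, Pi.single_apply]
    have hβ : (C (β / 2) : MvPolynomial (Fin 2) ℂ) * 2 = C β := by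
      rw [show (2 : MvPolynomial (Fin 2) ℂ) = C 2 from (map_ofNat C 2).symm, ← C_mul]
      congr 1; ring
    simp
    linear_combination (-(X 1 - C (p 1))) * hβ
  · rw [pt_zero, Fin.sum_univ_two]
    simp only [map_add, Derivation.leibniz, Derivation.leibniz_pow, pderiv_C, pderiv_X, map_sub,
      smul_eq_mul, Pi.single_apply]
    have hγ : (C (-γ / 2) : MvPolynomial (Fin 2) ℂ) * 2 = - C γ := by
      rw [show (2 : MvPolynomial (Fin 2) ℂ) = C 2 from (map_ofNat C 2).symm, ← C_mul, ← C_neg]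
      congr 1; ring
    have hδ' : (C (eval p (pderiv 1 Q)) : MvPolynomial (Fin 2) ℂ) = - C α := by
      rw [← C_neg, ← hδ]
    simp
    rw [hδ']
    linear_combination ((X 0 - C (p 0))) * hγ


/-- the curve of forms through `ω` -/
noncomputable def curve {d : ℕ} (hd : 1 ≤ d) (p : Fin 2 → ℂ) (ω : Forms d)
    (hP : eval p (ω.1 : MvPolynomial (Fin 2) ℂ) = 0)
    (hQ : eval p (ω.2 : MvPolynomial (Fin 2) ℂ) = 0) (t : ℂ) : Forms d :=
  (⟨pt p ω.1 t, (mem_restrictTotalDegree _ _ _).2
      (totalDegree_pt_le hd p _ hP ((mem_restrictTotalDegree _ _ _).1 ω.1.2) t)⟩,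
   ⟨pt p ω.2 t, (mem_restrictTotalDegree _ _ _).2
      (totalDegree_pt_le hd p _ hQ ((mem_restrictTotalDegree _ _ _).1 ω.2.2) t)⟩)

lemma curve_poly {d : ℕ} (hd : 1 ≤ d) (p : Fin 2 → ℂ) (ω : Forms d)
    (hP : eval p (ω.1 : MvPolynomial (Fin 2) ℂ) = 0)
    (hQ : eval p (ω.2 : MvPolynomial (Fin 2) ℂ) = 0) (i : Fin (Module.finrank ℂ (Forms d))) :
    ∃ c : Polynomial ℂ, ∀ t,
      (Module.finBasis ℂ (Forms d)).repr (curve hd p ω hP hQ t) i = c.eval t := by
  set φ := (Module.finBasis ℂ (Forms d)).coord i with hφ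
  obtain ⟨g1, hg1⟩ := LinearMap.exists_extend
    (φ.comp (LinearMap.inl ℂ (restrictTotalDegree (Fin 2) ℂ d) (restrictTotalDegree (Fin 2) ℂ d)))
  obtain ⟨g2, hg2⟩ := LinearMap.exists_extend
    (φ.comp (LinearMap.inr ℂ (restrictTotalDegree (Fin 2) ℂ d) (restrictTotalDegree (Fin 2) ℂ d)))
  obtain ⟨c1, hc1⟩ := pt_poly p ω.1 g1
  obtain ⟨c2, hc2⟩ := pt_poly p ω.2 g2
  refine ⟨c1 + c2, fun t => ?_⟩
  rw [Polynomial.eval_add, ← hc1, ← hc2]
  have e1 := LinearMap.congr_fun hg1 (curve hd p ω hP hQ t).1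
  have e2 := LinearMap.congr_fun hg2 (curve hd p ω hP hQ t).2
  simp only [LinearMap.comp_apply, Submodule.subtype_apply, LinearMap.inl_apply,
    LinearMap.inr_apply] at e1 e2
  have e3 : φ (curve hd p ω hP hQ t) = φ ((curve hd p ω hP hQ t).1, 0) +
      φ (0, (curve hd p ω hP hQ t).2) := by
    rw [← map_add]; congr 1; simp
  change φ (curve hd p ω hP hQ t) = _
  rw [e3, ← e1, ← e2]
  rfl

/-- **Main theorem.**  For every `d ≥ 2`, every irreducible component `X` of `M(d)` meets
`L(d+1)`; moreover the common point can be chosen to have a center. -/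
theorem result (d : ℕ) (hd : 2 ≤ d) (X : Set (M d)) (hX : X ∈ irreducibleComponents (M d)) :
    ∃ x ∈ (Subtype.val '' X : Set (FolBar d)) ∩ L d, HasCenter x := by
  obtain ⟨a, ⟨haF, haC⟩, hA⟩ := component_lemma {x | x ∈ Fol d ∧ HasCenter x} X hX
  obtain ⟨ω, hω, rfl, p, hp⟩ := haC
  obtain ⟨η, hη, hηω, hrel, hdeg⟩ := haF
  -- transport coprimality and degree from `η` to `ω`
  obtain ⟨c, hc, hcη⟩ := (cls_eq_iff hη hω).1 hηω
  have hd1 : 1 ≤ d := le_trans (by norm_num) hd
  have hrelω : IsRelPrime (ω.1 : MvPolynomial (Fin 2) ℂ) (ω.2 : MvPolynomial (Fin 2) ℂ) := by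
    intro x hx1 hx2
    refine hrel ?_ ?_
    · rw [← hcη]; exact hx1.trans ⟨C c, by
        change c • (ω.1 : MvPolynomial (Fin 2) ℂ) = _
        rw [smul_eq_C_mul, mul_comm]⟩
    · rw [← hcη]; exact hx2.trans ⟨C c, by
        change c • (ω.2 : MvPolynomial (Fin 2) ℂ) = _
        rw [smul_eq_C_mul, mul_comm]⟩
  have hdegω : max (ω.1 : MvPolynomial (Fin 2) ℂ).totalDegree
      (ω.2 : MvPolynomial (Fin 2) ℂ).totalDegree = d := by
    refine le_antisymm ?_ ?_
    · exact max_le ((mem_restrictTotalDegree _ _ _).1 ω.1.2)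
        ((mem_restrictTotalDegree _ _ _).1 ω.2.2)
    · refine hdeg.ge.trans ?_
      rw [← hcη]
      exact max_le_max (totalDegree_smul_le _ _) (totalDegree_smul_le _ _)
  set v := curve hd1 p ω hp.zero_P hp.zero_Q with hv
  have hne : ∀ t, v t ≠ 0 := by
    intro t h0
    have hr := reduced_pt hp t
    have h1 : pt p (ω.1 : MvPolynomial (Fin 2) ℂ) t = 0 := by
      have := congrArg (fun z : Forms d => (z.1 : MvPolynomial (Fin 2) ℂ)) h0
      simpa [hv, curve] using this
    rw [h1] at hr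
    simp at hr
  have h1 : cls (v 1) (hne 1) = cls ω hω := by
    have : v 1 = ω := by
      refine Prod.ext (Subtype.ext ?_) (Subtype.ext ?_)
      · exact pt_one p _ hp.zero_P
      · exact pt_one p _ hp.zero_Q
    rw [cls_eq_iff]
    exact ⟨1, one_ne_zero, by rw [one_smul, this]⟩
  have hmem : ∀ t, t ≠ 0 → cls (v t) (hne t) ∈ {x | x ∈ Fol d ∧ HasCenter x} := by
    intro t ht
    refine ⟨⟨v t, hne t, rfl, ?_, ?_⟩, v t, hne t, rfl, p, isCenter_pt hp ht⟩
    · exact isRelPrime_pt p _ _ hp.zero_P hp.zero_Q hrelω ht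
    · change max (pt p _ t).totalDegree (pt p _ t).totalDegree = d
      rw [totalDegree_pt p _ hp.zero_P ht, totalDegree_pt p _ hp.zero_Q ht, hdegω]
  have h0 := hA v (curve_poly hd1 p ω hp.zero_P hp.zero_Q) hne h1 hmem
  refine ⟨cls (v 0) (hne 0), ⟨h0, ?_⟩, v 0, hne 0, rfl, p, isCenter_pt_zero hp⟩
  obtain ⟨f, hf, hf1, hf2⟩ := hamiltonian_pt_zero hp
  exact ⟨f, hf.trans (by omega), v 0, hne 0, rfl, hf1, hf2⟩

end Pool.Agent.Results.MP_9e47d4_ag.CenterComponents
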