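import Pool.Agent.Lib_helper78.CFF.Final

/-! # Center components and the Hamiltonian component inside `F(3)`

The definitions (`Forms`, `FolBar`, `cls`, the Zariski topology `zariski`, `IsCenter`, `HasCenter`,
`Fol`, `M`, `L`) are in `Pool/Agent/Lib_helper78/CF/Defs.lean`; they are the ones of
`MP_9e47d4_ag.CenterComponents` (full answer to Q1 as posed, closures in the projectivization).

Here the intersection is taken inside `F(3) = Fol 3`, the foliations of degree exactly `3`: there
is an irreducible component `X` of `M(3)` such that no foliation of degree `3` in `X` has a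
polynomial first integral `f`, `deg f ≤ 4`.  Indeed for every member `P dy - Q dx` of `X` the
polynomial `y P - x Q` has degree at most `3`, so its homogeneous part of degree `4` vanishes and the
line at infinity is not invariant, while it is invariant for every `df`, `deg f ≤ 4`, of degree `3`.
The component is the one through the explicit foliation
`(x - 2x² + y² - 8x³ + 2xy²) dy + y (1 + 3x + 8x² - 2y²) dx`, which has a center at `0`.

The proof is in `Pool/Agent/Lib_helper78/CFF/`, by helper6, helper16, helper37, helper47, helper56,
helper78 and helper82. -/

set_option autoImplicit false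

namespace Pool.Agent.Results.MP_9e47d4_ag.InsideFd

open Pool.Agent.CF

/-- There is an irreducible component `X` of `M(3)` (it contains foliations of degree `3` with a
center) such that `y P - x Q` has degree at most `3` for all members `P dy - Q dx` of `X`, and no
foliation of degree `3` in `X` lies in `L(4)`. -/
theorem result : ∃ X ∈ irreducibleComponents (M 3),
    (∃ x ∈ (Subtype.val '' X : Set (FolBar 3)), x ∈ Fol 3 ∧ HasCenter x) ∧
    ∀ x ∈ (Subtype.val '' X : Set (FolBar 3)),
      (∀ (ω : Forms 3) (h : ω ≠ 0), cls ω h = x →
        (MvPolynomial.X 0 * (-(ω.2 : MvPolynomial (Fin 2) ℂ)) +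
          MvPolynomial.X 1 * (ω.1 : MvPolynomial (Fin 2) ℂ)).totalDegree ≤ 3) ∧
      (x ∈ Fol 3 → x ∉ L 3) :=
  final

end Pool.Agent.Results.MP_9e47d4_ag.InsideFd
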